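import Pool.Agent.Run7.h608.TK.Iface

/-! Piece VOL of project TK (MP_cc494f_an). -/

set_option autoImplicit false

open MeasureTheory Set Filter Topology
open scoped ENNReal
open R109.GT

namespace Run7.h480.TK
open Run7.h608.TK

theorem mem_J_iff (n : ℕ) (i : ℤ) (x : ℝ) : x ∈ J n i ↔ ⌊(2:ℝ) ^ n * x⌋ = i := Iff.rfl

theorem mem_Ico_iff (s : ℕ) (x : ℝ) :
    x ∈ Ico (0:ℝ) 1 ↔ 0 ≤ ⌊(2:ℝ) ^ s * x⌋ ∧ ⌊(2:ℝ) ^ s * x⌋ < 2 ^ s := by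
  have h2 : (0:ℝ) < 2 ^ s := by positivity
  rw [mem_Ico, Int.floor_nonneg, Int.floor_lt]
  push_cast
  constructor
  · rintro ⟨h0, h1⟩
    exact ⟨by positivity, by nlinarith⟩
  · rintro ⟨h0, h1⟩
    constructor
    · by_contra hc
      push Not at hc
      nlinarith
    · by_contra hc
      push Not at hc
      nlinarith

theorem S_of_J (w : ℕ → ℤ → ℤ) {s s' : ℕ} (h : s' ≤ s) {i : ℤ} {x : ℝ} (hx : x ∈ J s i) :
    S w s' x = slope w s' (i / 2 ^ (s - s')) := by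
  have h1 := floor_div s' (s - s') x
  rw [Nat.add_sub_cancel' h, (mem_J_iff s i x).1 hx] at h1
  unfold S
  rw [h1]

/-- the indices of the intervals of `Gs` -/
def Ix (w : ℕ → ℤ → ℤ) (n0 M : ℕ) (r : ℝ) : Set (ℕ × ℤ) :=
  {p | n0 ≤ p.1 ∧ p.1 ≤ M ∧ 0 ≤ p.2 ∧ p.2 < 2 ^ p.1 ∧ slope w p.1 p.2 = 0 ∧
    (∀ s', n0 ≤ s' → s' < p.1 → slope w s' (p.2 / 2 ^ (p.1 - s')) ≠ 0) ∧
    r ≤ (Nc w p.1 (cell w p.1 p.2) : ℝ)}

theorem mem_Ix_iff (w : ℕ → ℤ → ℤ) (n0 M : ℕ) (r : ℝ) (s : ℕ) (x : ℝ) :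
    (s, ⌊(2:ℝ) ^ s * x⌋) ∈ Ix w n0 M r ↔ x ∈ Ico (0:ℝ) 1 ∧ n0 ≤ s ∧ s ≤ M ∧ S w s x = 0 ∧
    (∀ s', n0 ≤ s' → s' < s → S w s' x ≠ 0) ∧ r ≤ (Nc w s (cell w s ⌊(2:ℝ) ^ s * x⌋) : ℝ) := by
  rw [mem_Ico_iff s x]
  have hJ : x ∈ J s ⌊(2:ℝ) ^ s * x⌋ := rfl
  constructor
  · rintro ⟨h1, h2, h3, h4, h5, h6, h7⟩
    refine ⟨⟨h3, h4⟩, h1, h2, h5, ?_, h7⟩
    intro s' h8 h9
    rw [S_of_J w h9.le hJ]
    exact h6 s' h8 h9
  · rintro ⟨⟨h3, h4⟩, h1, h2, h5, h6, h7⟩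
    refine ⟨h1, h2, h3, h4, h5, ?_, h7⟩
    intro s' h8 h9
    have h10 := h6 s' h8 h9
    rw [S_of_J w h9.le hJ] at h10
    exact h10

/-- the part of `J s i` with values in the cell -/
def Aset (w : ℕ → ℤ → ℤ) (p : ℕ × ℤ) : Set ℝ :=
  {x : ℝ | x ∈ J p.1 p.2 ∧
    (cell w p.1 p.2 : ℝ) ≤ 2 ^ p.1 * tak w x ∧ 2 ^ p.1 * tak w x ≤ (cell w p.1 p.2 : ℝ) + 1}

theorem meas_Aset (w : ℕ → ℤ → ℤ) (hw : Sgn w) (p : ℕ × ℤ) : MeasurableSet (Aset w p) := by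
  have hc : Measurable (fun x => (2:ℝ) ^ p.1 * tak w x) := ((cont w hw).measurable).const_mul _
  have h1 : Aset w p = J p.1 p.2 ∩ ((fun x => (2:ℝ) ^ p.1 * tak w x) ⁻¹'
      Icc (cell w p.1 p.2 : ℝ) ((cell w p.1 p.2 : ℝ) + 1)) := by
    ext x
    simp only [Aset, mem_ofPred_eq, mem_inter_iff, mem_preimage, mem_Icc]
  rw [h1]
  exact (R109.GT.PC.measurableSet_J _ _).inter (hc measurableSet_Icc)

theorem disj_Aset (w : ℕ → ℤ → ℤ) (n0 M : ℕ) (r : ℝ) :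
    (Ix w n0 M r).PairwiseDisjoint (Aset w) := by
  rintro ⟨s, i⟩ hp ⟨t, j⟩ hq hne
  rw [Function.onFun, Set.disjoint_left]
  intro x hx hy
  have hxi : ⌊(2:ℝ) ^ s * x⌋ = i := hx.1
  have hyj : ⌊(2:ℝ) ^ t * x⌋ = j := hy.1
  rw [← hxi] at hp
  rw [← hyj] at hq
  have h1 := (mem_Ix_iff w n0 M r s x).1 hp
  have h2 := (mem_Ix_iff w n0 M r t x).1 hq
  have hst : s = t := by
    rcases lt_trichotomy s t with h | h | h
    · exact absurd h1.2.2.2.1 (h2.2.2.2.2.1 s h1.2.1 h)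
    · exact h
    · exact absurd h2.2.2.2.1 (h1.2.2.2.2.1 t h2.2.1 h)
  subst hst
  apply hne
  rw [← hxi, ← hyj]

theorem t_VOL : S_UPI → S_VOL := by
  intro hU w D hw hD hB n0 M r
  have hcount : (Ix w n0 M r).Countable := Set.to_countable _
  have h1 : Gs w n0 M r ⊆ ⋃ p ∈ Ix w n0 M r, J p.1 p.2 := by
    rintro x ⟨hx, s, h1, h2, h3, h4, h5⟩
    rw [mem_iUnion₂]
    exact ⟨(s, ⌊(2:ℝ) ^ s * x⌋), (mem_Ix_iff w n0 M r s x).2 ⟨hx, h1, h2, h3, h4, h5⟩, rfl⟩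
  have h2 : (⋃ p ∈ Ix w n0 M r, Aset w p) ⊆ (tak w ⁻¹' Vs w n0 M r) ∩ Ico (0:ℝ) 1 := by
    intro x hx
    rw [mem_iUnion₂] at hx
    obtain ⟨⟨s, i⟩, hp, hx⟩ := hx
    have hxi : ⌊(2:ℝ) ^ s * x⌋ = i := hx.1
    subst hxi
    have h3 := (mem_Ix_iff w n0 M r s x).1 hp
    exact ⟨⟨x, s, h3.1, h3.2.1, h3.2.2.1, h3.2.2.2.1, h3.2.2.2.2.1, h3.2.2.2.2.2, hx.2.1, hx.2.2⟩,
      h3.1⟩
  calc ENNReal.ofReal (1 / 8) * volume (Gs w n0 M r)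
      ≤ ENNReal.ofReal (1 / 8) * volume (⋃ p ∈ Ix w n0 M r, J p.1 p.2) := by
        gcongr
    _ ≤ ENNReal.ofReal (1 / 8) * ∑' p : Ix w n0 M r, volume (J p.1.1 p.1.2) := by
        gcongr
        exact measure_biUnion_le volume hcount (fun p : ℕ × ℤ => J p.1 p.2)
    _ = ∑' p : Ix w n0 M r, ENNReal.ofReal (1 / 8) * volume (J p.1.1 p.1.2) :=
        ENNReal.tsum_mul_left.symm
    _ ≤ ∑' p : Ix w n0 M r, volume (Aset w p) := by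
        refine ENNReal.tsum_le_tsum ?_
        rintro ⟨⟨s, i⟩, hp⟩
        have h3 := hU w hw s i hp.2.2.2.2.1
        have h4 : ENNReal.ofReal (1 / 8) * volume (J s i) = ENNReal.ofReal (1 / 8 / 2 ^ s) := by
          rw [R109.GT.vol_J, ← ENNReal.ofReal_mul (by norm_num)]
          congr 1
          ring
        exact h4.le.trans h3
    _ = volume (⋃ p ∈ Ix w n0 M r, Aset w p) :=
        (measure_biUnion hcount (disj_Aset w n0 M r) (fun p _ => meas_Aset w hw p)).symm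
    _ ≤ volume ((tak w ⁻¹' Vs w n0 M r) ∩ Ico (0:ℝ) 1) := measure_mono h2
    _ = (volume.restrict (Ico (0:ℝ) 1)) (tak w ⁻¹' Vs w n0 M r) :=
        (Measure.restrict_apply' measurableSet_Ico).symm
    _ ≤ occ w (Vs w n0 M r) :=
        Measure.le_map_apply (cont w hw).measurable.aemeasurable _
    _ ≤ (ENNReal.ofReal D • (volume : Measure ℝ)) (Vs w n0 M r) := hB _
    _ = ENNReal.ofReal D * volume (Vs w n0 M r) := by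
        rw [Measure.smul_apply, smul_eq_mul]

end Run7.h480.TK
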