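import Pool.Agent.Run7.h799.TK.PZ
import Pool.Agent.Run7.h480.TK.VOL

/-! Piece GOOD of project TK (MP_cc494f_an). -/

set_option autoImplicit false

open MeasureTheory Set Filter Topology
open scoped ENNReal
open R109.GT

namespace Run7.h480.TK
open Run7.h608.TK

/-- points with a steep chord at level `n` -/
theorem vol_steep (hPZ : S_PZ) (w : ℕ → ℤ → ℤ) (hw : Sgn w) (n : ℕ) (hn : 1 ≤ n) :
    ENNReal.ofReal (3 / 16) ≤ volume {x : ℝ | x ∈ Ico (0:ℝ) 1 ∧ (n:ℤ) ≤ 4 * (S w n x) ^ 2} := by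
  classical
  set F := (ivs n).filter (fun i => (n:ℤ) ≤ 4 * (slope w n i) ^ 2) with hF
  have h1 : (⋃ i ∈ F, J n i) ⊆ {x : ℝ | x ∈ Ico (0:ℝ) 1 ∧ (n:ℤ) ≤ 4 * (S w n x) ^ 2} := by
    intro x hx
    rw [mem_iUnion₂] at hx
    obtain ⟨i, hi, hx⟩ := hx
    have hxi : ⌊(2:ℝ) ^ n * x⌋ = i := hx
    rw [hF, Finset.mem_filter] at hi
    have hi1 := Finset.mem_Ico.1 hi.1
    refine ⟨(mem_Ico_iff n x).2 ?_, ?_⟩
    · rw [hxi]; exact hi1
    · unfold S; rw [hxi]; exact hi.2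
  refine le_trans ?_ (measure_mono h1)
  rw [measure_biUnion_finset (fun i _ j _ hij => R109.GT.PC.J_disj n hij)
    (fun i _ => R109.GT.PC.measurableSet_J n i)]
  simp only [R109.GT.vol_J]
  rw [Finset.sum_const, nsmul_eq_mul, ← ENNReal.ofReal_natCast, ← ENNReal.ofReal_mul (by positivity)]
  apply ENNReal.ofReal_le_ofReal
  have h2 := hPZ w hw n hn
  have h3 : (3:ℝ) * 2 ^ n ≤ 16 * (F.card : ℝ) := by exact_mod_cast h2
  have h4 : (0:ℝ) < 2 ^ n := by positivity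
  rw [mul_one_div, div_le_div_iff₀ (by norm_num) h4]
  linarith

theorem sum_abs (w : ℕ → ℤ → ℤ) (hw : Sgn w) (N : ℕ) (t : ℝ) (ht : 0 < t) :
    ∑ i ∈ ivs N, |(slope w N i : ℝ)| ≤ 2 ^ N * ((N / t + t) / 2) := by
  have h2 : ∑ i ∈ ivs N, ((slope w N i : ℝ)) ^ 2 = N * 2 ^ N := by
    exact_mod_cast Run7.h799.TK.sum2 w hw N
  have h3 : ∀ i ∈ ivs N, |(slope w N i : ℝ)| ≤ ((slope w N i : ℝ)) ^ 2 / (2 * t) + t / 2 := by
    intro i _
    have h4 : 0 ≤ (|(slope w N i : ℝ)| - t) ^ 2 := sq_nonneg _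
    rw [← sq_abs (slope w N i : ℝ)]
    rw [div_add_div _ _ (by positivity) (by norm_num), le_div_iff₀ (by positivity)]
    nlinarith
  refine (Finset.sum_le_sum h3).trans ?_
  rw [Finset.sum_add_distrib, ← Finset.sum_div, h2, Finset.sum_const, Run7.h799.TK.card_ivs,
    nsmul_eq_mul]
  push_cast
  apply le_of_eq
  field_simp

/-- points without slope zero at the levels `N..N+T` -/
theorem vol_nozero (hH : S_HIT) (w : ℕ → ℤ → ℤ) (hw : Sgn w) (N T b : ℕ) (hT : 1 ≤ T) (hb : 1 ≤ b)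
    (t : ℝ) (ht : 0 < t) :
    volume {x : ℝ | x ∈ Ico (0:ℝ) 1 ∧ ∀ m, N ≤ m → m ≤ N + T → S w m x ≠ 0} ≤
      ENNReal.ofReal ((N / t + t) / 2 * (1 / b + b / T)) := by
  have h1 : {x : ℝ | x ∈ Ico (0:ℝ) 1 ∧ ∀ m, N ≤ m → m ≤ N + T → S w m x ≠ 0} ⊆
      ⋃ i ∈ ivs N, {x : ℝ | x ∈ J N i ∧ ∀ m, N ≤ m → m ≤ N + T → S w m x ≠ 0} := by
    rintro x ⟨hx, hx2⟩
    rw [mem_iUnion₂]
    exact ⟨⌊(2:ℝ) ^ N * x⌋, Finset.mem_Ico.2 ((mem_Ico_iff N x).1 hx), rfl, hx2⟩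
  refine (measure_mono h1).trans ((measure_biUnion_finset_le _ _).trans ?_)
  refine (Finset.sum_le_sum (fun i _ => hH w hw N T b i hT hb)).trans ?_
  rw [← ENNReal.ofReal_sum_of_nonneg (fun i _ => by positivity)]
  apply ENNReal.ofReal_le_ofReal
  have h5 : ∀ i : ℤ, (|(slope w N i : ℝ)| / b + |(slope w N i : ℝ)| * b / T) / 2 ^ N =
      |(slope w N i : ℝ)| * ((1 / b + b / T) / 2 ^ N) := by
    intro i; ring
  simp only [h5]
  rw [← Finset.sum_mul]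
  have h6 : (0:ℝ) ≤ (1 / b + b / T) / 2 ^ N := by positivity
  refine (mul_le_mul_of_nonneg_right (sum_abs w hw N t ht) h6).trans (le_of_eq ?_)
  field_simp

theorem num_est (n m : ℕ) (hn : 1 ≤ n) (hm : m ≤ n) :
    let u := √(n:ℝ)
    let b := ⌈128 * u⌉₊
    1 ≤ b ∧ ((((n + m : ℕ) : ℝ)) / (3 / 2 * u) + 3 / 2 * u) / 2 *
      (1 / (b : ℝ) + (b : ℝ) / ((16384 * n - n - m : ℕ) : ℝ)) ≤ 1 / 32 := by
  intro u b
  have hn1 : (1:ℝ) ≤ n := by exact_mod_cast hn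
  have hu2 : u * u = n := Real.mul_self_sqrt (by positivity)
  have hu1 : 1 ≤ u := by
    rw [show (1:ℝ) = √1 by simp]
    exact Real.sqrt_le_sqrt hn1
  have hb1 : 128 * u ≤ (b:ℝ) := Nat.le_ceil _
  have hb2 : (b:ℝ) < 128 * u + 1 := Nat.ceil_lt_add_one (by positivity)
  have hb3 : (1:ℝ) ≤ b := by linarith
  refine ⟨by exact_mod_cast hb3, ?_⟩
  have hT : 16382 * n ≤ 16384 * n - n - m := by omega
  have hT2 : (16382:ℝ) * (u * u) ≤ ((16384 * n - n - m : ℕ) : ℝ) := by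
    rw [hu2]; exact_mod_cast hT
  have hm2 : (m:ℝ) ≤ u * u := by rw [hu2]; exact_mod_cast hm
  have e1 : (((n + m : ℕ) : ℝ)) / (3 / 2 * u) ≤ 4 / 3 * u := by
    push_cast
    rw [div_le_iff₀ (by positivity), ← hu2]
    nlinarith
  have e2 : 1 / (b:ℝ) ≤ 1 / (128 * u) := one_div_le_one_div_of_le (by positivity) hb1
  have e3 : (b:ℝ) / ((16384 * n - n - m : ℕ) : ℝ) ≤ (129 * u) / (16382 * (u * u)) := by
    apply div_le_div₀ (by positivity) (by linarith) (by positivity) hT2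
  have e4 : (129 * u) / (16382 * (u * u)) = 129 / 16382 * (1 / u) := by
    field_simp
  have e5 : 1 / (128 * u) = 1 / 128 * (1 / u) := by
    field_simp
  have e6 : 1 / (b : ℝ) + (b : ℝ) / ((16384 * n - n - m : ℕ) : ℝ) ≤
      (1 / 128 + 129 / 16382) * (1 / u) := by
    rw [e4] at e3
    rw [e5] at e2
    linarith
  have e7 : ((((n + m : ℕ) : ℝ)) / (3 / 2 * u) + 3 / 2 * u) / 2 ≤ 17 / 12 * u := by
    linarith
  calc ((((n + m : ℕ) : ℝ)) / (3 / 2 * u) + 3 / 2 * u) / 2 *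
      (1 / (b : ℝ) + (b : ℝ) / ((16384 * n - n - m : ℕ) : ℝ))
      ≤ (17 / 12 * u) * ((1 / 128 + 129 / 16382) * (1 / u)) :=
        mul_le_mul e7 e6 (by positivity) (by positivity)
    _ = 17 / 12 * (1 / 128 + 129 / 16382) := by
        field_simp
    _ ≤ 1 / 32 := by norm_num

theorem t_GOOD : S_HIT → S_PZ → S_BAD → S_NMON → S_GOOD := by
  intro hH hPZ hBAD hNM D hD
  obtain ⟨m, hm⟩ := pow_unbounded_of_one_lt (512 * D) (by norm_num : (1:ℝ) < 2)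
  refine ⟨1 / 512, by norm_num, m, 16384, 16 * m ^ 2 + m + 1, by norm_num, ?_⟩
  intro w hw hB n hn
  have hn1 : 1 ≤ n := by omega
  have hmn : m ≤ n := by nlinarith [Nat.zero_le (m ^ 2)]
  have h16 : 16 * m ^ 2 ≤ n := by omega
  obtain ⟨hb, hest⟩ := num_est n m hn1 hmn
  set b := ⌈128 * √(n:ℝ)⌉₊ with hbdef
  set T := 16384 * n - n - m with hTdef
  have hT1 : 1 ≤ T := by omega
  have hNT : n + m + T = 16384 * n := by omega
  have hu : (0:ℝ) < 3 / 2 * √(n:ℝ) := by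
    have : (0:ℝ) < n := by exact_mod_cast hn1
    positivity
  have hA := vol_steep hPZ w hw n hn1
  have hBd := hBAD w D (1 / 512) m n hw hB hD (by norm_num) hn1 h16
  have hC := vol_nozero hH w hw (n + m) T b hT1 hb (3 / 2 * √(n:ℝ)) hu
  set A : Set ℝ := {x : ℝ | x ∈ Ico (0:ℝ) 1 ∧ (n:ℤ) ≤ 4 * (S w n x) ^ 2} with hAdef
  set B : Set ℝ := {x : ℝ | x ∈ Ico (0:ℝ) 1 ∧ (n:ℤ) ≤ 4 * (S w n x) ^ 2 ∧
    ((Nc w n ⌊(2:ℝ) ^ n * tak w x⌋ : ℝ) < 1 / 512 * √n ∨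
      |(2:ℝ) ^ n * tak w x - round ((2:ℝ) ^ n * tak w x)| ≤ 2 / 2 ^ m)} with hBdef
  set C : Set ℝ := {x : ℝ | x ∈ Ico (0:ℝ) 1 ∧ ∀ m', n + m ≤ m' → m' ≤ n + m + T → S w m' x ≠ 0}
    with hCdef
  have hsub : A ⊆ Gs w (n + m) (16384 * n) (1 / 512 * √n) ∪ (B ∪ C) := by
    rintro x ⟨hx, hx2⟩
    by_cases hxB : x ∈ B
    · exact Or.inr (Or.inl hxB)
    by_cases hxC : x ∈ C
    · exact Or.inr (Or.inr hxC)
    left
    have h1 : ¬ ((Nc w n ⌊(2:ℝ) ^ n * tak w x⌋ : ℝ) < 1 / 512 * √n ∨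
      |(2:ℝ) ^ n * tak w x - round ((2:ℝ) ^ n * tak w x)| ≤ 2 / 2 ^ m) :=
      fun h => hxB ⟨hx, hx2, h⟩
    push Not at h1
    have h2 : ∃ s, n + m ≤ s ∧ s ≤ n + m + T ∧ S w s x = 0 := by
      by_contra hc
      push Not at hc
      exact hxC ⟨hx, hc⟩
    classical
    have h3 : ∃ s, n + m ≤ s ∧ S w s x = 0 := ⟨_, h2.choose_spec.1, h2.choose_spec.2.2⟩
    obtain ⟨s0, hs0, hs1, hs2⟩ := h2
    have h4 := Nat.find_spec h3
    have h5 : Nat.find h3 ≤ s0 := Nat.find_min' h3 ⟨hs0, hs2⟩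
    refine ⟨hx, Nat.find h3, h4.1, by omega, h4.2, ?_, ?_⟩
    · intro s' h6 h7 h8
      exact Nat.find_min h3 h7 ⟨h6, h8⟩
    · have h9 := hNM w hw n m (Nat.find h3) x hx h4.1 h4.2 h1.2
      refine h1.1.trans ?_
      exact_mod_cast h9
  have hvol : ENNReal.ofReal (3 / 16) ≤ volume (Gs w (n + m) (16384 * n) (1 / 512 * √n)) +
      (ENNReal.ofReal (1 / 16) + ENNReal.ofReal (1 / 16)) := by
    refine hA.trans ((measure_mono hsub).trans ((measure_union_le _ _).trans ?_))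
    refine add_le_add le_rfl ((measure_union_le _ _).trans (add_le_add ?_ ?_))
    · refine hBd.trans (ENNReal.ofReal_le_ofReal ?_)
      have h2m : (0:ℝ) < 2 ^ m := by positivity
      have h10 : 16 * D / 2 ^ m ≤ 1 / 32 := by
        rw [div_le_div_iff₀ h2m (by norm_num)]
        linarith
      linarith
    · refine hC.trans (ENNReal.ofReal_le_ofReal ?_)
      linarith
  by_contra hc
  push Not at hc
  have h11 : volume (Gs w (n + m) (16384 * n) (1 / 512 * √n)) +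
      (ENNReal.ofReal (1 / 16) + ENNReal.ofReal (1 / 16)) <
      ENNReal.ofReal (1 / 16) + (ENNReal.ofReal (1 / 16) + ENNReal.ofReal (1 / 16)) := by
    apply ENNReal.add_lt_add_right _ hc
    exact ENNReal.add_ne_top.2 ⟨ENNReal.ofReal_ne_top, ENNReal.ofReal_ne_top⟩
  rw [← ENNReal.ofReal_add (by norm_num) (by norm_num),
    ← ENNReal.ofReal_add (by norm_num) (by norm_num)] at h11
  rw [← ENNReal.ofReal_add (by norm_num) (by norm_num)] at hvol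
  have h12 := lt_of_le_of_lt hvol h11
  norm_num at h12

end Run7.h480.TK
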